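import Pool.Agent.Helper17.R8.Sheet

/-! Row REL of the rank eight family (MP_798d7d_nt). -/

set_option autoImplicit false

namespace Pool.Helper17.R8

theorem rel_ek_map {R R' : Type*} [CommRing R] [CommRing R'] (φ : R →+* R') (s : Fin 8 → R) (k : ℕ) :
    φ (ek s k) = ek (fun i => φ (s i)) k := by
  unfold ek
  rw [map_sum]
  exact Finset.sum_congr rfl fun T _ => map_prod φ _ _

theorem rel_fI_map {R R' : Type*} [CommRing R] [CommRing R'] (φ : R →+* R') (e : ℕ → R) (t : R) :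
    φ (fI e t) = fI (fun k => φ (e k)) (φ t) := by
  simp only [fI, q4, q3, q2, q1, q0, map_add, map_sub, map_mul, map_pow, map_ofNat]

theorem rel_fJ_map {R R' : Type*} [CommRing R] [CommRing R'] (φ : R →+* R') (e : ℕ → R) (t : R) :
    φ (fJ e t) = fJ (fun k => φ (e k)) (φ t) := by
  simp only [fJ, q4, q3, q2, q1, q0, map_add, map_sub, map_mul, map_pow, map_ofNat]

/-- congruences pass through the family -/
theorem rel_dvd (m : ℤ) (w : Par) (h : ∀ i, m ∣ w.1 i - ub i) (ht : m ∣ w.2 - 3) :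
    m ∣ fI (ek (ss w.1)) w.2 - fI (ek (ss ub)) 3 ∧ m ∣ fJ (ek (ss w.1)) w.2 - fJ (ek (ss ub)) 3 := by
  let φ : ℤ →+* ℤ ⧸ Ideal.span {m} := Ideal.Quotient.mk _
  have hφ : ∀ a b : ℤ, m ∣ a - b ↔ φ a = φ b := fun a b => by
    rw [Ideal.Quotient.eq, Ideal.mem_span_singleton]
  have h' : ∀ i, φ (w.1 i) = φ (ub i) := fun i => (hφ _ _).1 (h i)
  have ht' : φ w.2 = φ 3 := (hφ _ _).1 ht
  have hs : (fun i => φ (ss w.1 i)) = fun i => φ (ss ub i) := by
    funext i
    fin_cases i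
    · exact h' 0
    · exact h' 1
    · exact h' 2
    · exact h' 3
    · exact h' 4
    · exact h' 5
    · rfl
    · show φ (-(w.1 0 + w.1 1 + w.1 2 + w.1 3 + w.1 4 + w.1 5 + 1)) =
        φ (-(ub 0 + ub 1 + ub 2 + ub 3 + ub 4 + ub 5 + 1))
      rw [map_neg, map_neg, map_add, map_add, map_add, map_add, map_add, map_add, map_add, map_add,
        map_add, map_add, map_add, map_add, h' 0, h' 1, h' 2, h' 3, h' 4, h' 5]
  have he : (fun k => φ (ek (ss w.1) k)) = fun k => φ (ek (ss ub) k) := by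
    funext k
    rw [rel_ek_map, rel_ek_map, hs]
  constructor
  · rw [hφ, rel_fI_map, rel_fI_map, he, ht']
  · rw [hφ, rel_fJ_map, rel_fJ_map, he, ht']

theorem rel_e2 : ek (ss ub) 2 = -444 := by decide +kernel
theorem rel_e3 : ek (ss ub) 3 = -160 := by decide +kernel
theorem rel_e4 : ek (ss ub) 4 = 53454 := by decide +kernel
theorem rel_e5 : ek (ss ub) 5 = -16320 := by decide +kernel
theorem rel_e6 : ek (ss ub) 6 = -1588076 := by decide +kernel
theorem rel_e7 : ek (ss ub) 7 = 2310240 := by decide +kernel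
theorem rel_e8 : ek (ss ub) 8 = 3828825 := by decide +kernel

theorem rel_I0 : fI (ek (ss ub)) 3 = 48 * 459878073574319139 := by
  simp only [fI, q4, q3, q2, q1, q0, rel_e2, rel_e3, rel_e4, rel_e5, rel_e6, rel_e7, rel_e8]
  norm_num

theorem rel_J0 : fJ (ek (ss ub)) 3 = 1728 * (-162579259487614027045167326) := by
  simp only [fJ, q4, q3, q2, q1, q0, rel_e2, rel_e3, rel_e4, rel_e5, rel_e6, rel_e7, rel_e8]
  norm_num

theorem st_REL : ST_REL := by
  intro w hw
  obtain ⟨hI, hJ⟩ := rel_dvd MM w hw.1 hw.2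
  rw [rel_I0] at hI
  rw [rel_J0] at hJ
  obtain ⟨F, hF⟩ : ∃ F : ℤ, F = ((QQ.factorial : ℕ) : ℤ) := ⟨_, rfl⟩
  have hM : MM = 1728 * F := by rw [hF]; rfl
  rw [hM] at hI hJ
  rw [← hF]
  obtain ⟨x, hx⟩ := hI
  obtain ⟨y, hy⟩ := hJ
  have hcA : cA w = -459878073574319139 - 36 * F * x := by
    unfold cA
    have e1 : -(fI (ek (ss w.1)) w.2) = 48 * (-459878073574319139 - 36 * F * x) := by linarith
    rw [e1]
    exact Int.mul_ediv_cancel_left _ (by norm_num)
  have hcB : cB w = 162579259487614027045167326 - F * y := by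
    unfold cB
    have e1 : -(fJ (ek (ss w.1)) w.2) = 1728 * (162579259487614027045167326 - F * y) := by linarith
    rw [e1]
    exact Int.mul_ediv_cancel_left _ (by norm_num)
  refine ⟨?_, ?_, ?_, ?_⟩
  · rw [hcA]; linarith
  · rw [hcB]; linarith
  · rw [hcA]; exact ⟨-(36 * x), by ring⟩
  · rw [hcB]; exact ⟨-y, by ring⟩

end Pool.Helper17.R8
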